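import Pool.Agent.Lib.MP_333da9_nt.Final

/-!
# MP_333da9_nt: a negative answer to Q1

For every prime `p ≥ 5` there are, over the global field `K = 𝔽_p(t)` with a place `v` (it is the
place `t = 0`), projective varieties `X`, `Y` of positive dimension with `X(K)` Zariski dense in `X`,
a dominant rational map `f : X ⇢ Y` and a nonempty open `U ⊆ X`, the complement of `B`, such that for
no proper closed subset `Z` of `Y` (in particular for the support of no Cartier divisor `D > 0` on
`Y`) there is a sequence of points of `(U ∖ f^*Z)(K)` that approaches `f^*Z` `v`-adically.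
-/

set_option autoImplicit false

namespace Pool.Agent.Results.MP_333da9_nt.TranscendentalAccumulation

open MP333

/-- **Negative answer to Q1 of MP_333da9_nt.** -/
theorem result (p : ℕ) [Fact p.Prime] (hp : 5 ≤ p) :
    ∃ v : AbsoluteValue (RatFunc (ZMod p)) ℝ, v.IsNontrivial ∧
      ∃ (n m : ℕ) (X : ProjVar (RatFunc (ZMod p)) n) (Y : ProjVar (RatFunc (ZMod p)) m)
        (f : RatMap X Y) (B : ClosedSet (RatFunc (ZMod p)) n),
        X.PosDim ∧ Y.PosDim ∧ X.DensePoints ∧ f.IsDominant ∧ B.IsProper X ∧
          ∀ Z : ClosedSet (RatFunc (ZMod p)) m, Z.IsProper Y →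
            ∀ P : ℕ → Fin (n + 1) → RatFunc (ZMod p),
              (∀ k, X.IsPoint (P k) ∧ ¬ B.Mem X (P k) ∧ ¬ f.InPullback Z (P k)) →
                ¬ f.Approaches Z v P :=
  ⟨tabs p, tabs_nontrivial, final hp⟩

end Pool.Agent.Results.MP_333da9_nt.TranscendentalAccumulation
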